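import Pool.Agent.W206.YP.Stm

/-!
# Project YP: isogeny is an equivalence relation (part EQV)
-/

set_option autoImplicit false

namespace Pool.Agent.W412.YP.EQV

open UpperHalfPlane H294ZP Pool.Agent.W206.YP

/-- integral Moebius images of CM points are CM points -/
theorem cm_moebius (τ w : ℍ) (α β γ δ : ℤ) (hdet : 0 < α * δ - β * γ)
    (h : (w : ℂ) * ((γ : ℂ) * (τ : ℂ) + (δ : ℂ)) = (α : ℂ) * (τ : ℂ) + (β : ℂ))
    (hτ : IsCM τ) : IsCM w := by
  obtain ⟨A, B, C, hA, hq⟩ := hτ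
  have e1 : (δ : ℂ) * w - β = τ * (α - γ * w) := by linear_combination h
  refine ⟨A * δ ^ 2 - B * δ * γ + C * γ ^ 2, -2 * A * δ * β + B * (δ * α + β * γ) - 2 * C * α * γ,
    A * β ^ 2 - B * α * β + C * α ^ 2, ?_, ?_⟩
  · intro h0
    have hv : 0 < (τ : ℂ).im := τ.im_pos
    have h1 := congrArg Complex.im hq
    have h2 := congrArg Complex.re hq
    simp only [pow_two, Complex.add_im, Complex.mul_im, Complex.intCast_re, Complex.intCast_im,
      Complex.zero_im, Complex.mul_re, Complex.add_re, Complex.zero_re, zero_mul, add_zero,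
      sub_zero] at h1 h2
    set u := (τ : ℂ).re with hu
    set v := (τ : ℂ).im with hvdef
    have hB : (B : ℝ) = -2 * A * u := by
      have : v * ((B : ℝ) + 2 * A * u) = 0 := by linear_combination h1
      rcases mul_eq_zero.1 this with h3 | h3
      · exact absurd h3 hv.ne'
      · linarith
    have hC : (C : ℝ) = A * (u ^ 2 + v ^ 2) := by
      rw [hB] at h2
      linear_combination h2
    have h3 : ((A * δ ^ 2 - B * δ * γ + C * γ ^ 2 : ℤ) : ℝ) = 0 := by rw [h0]; norm_num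
    push_cast at h3
    rw [hB, hC] at h3
    have h4 : (A : ℝ) * (((δ : ℝ) + u * γ) ^ 2 + v ^ 2 * (γ : ℝ) ^ 2) = 0 := by
      linear_combination h3
    have hA' : (A : ℝ) ≠ 0 := by exact_mod_cast hA
    rcases mul_eq_zero.1 h4 with h5 | h5
    · exact hA' h5
    · have p1 := sq_nonneg ((δ : ℝ) + u * γ)
      have p2 := mul_nonneg (sq_nonneg v) (sq_nonneg (γ : ℝ))
      have h6 : v ^ 2 * (γ : ℝ) ^ 2 = 0 := by linarith
      have h7 : ((δ : ℝ) + u * γ) ^ 2 = 0 := by linarith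
      have h8 : (γ : ℝ) = 0 := by
        rcases mul_eq_zero.1 h6 with h9 | h9
        · exact absurd (pow_eq_zero_iff (two_ne_zero)|>.1 h9) hv.ne'
        · exact pow_eq_zero_iff (two_ne_zero)|>.1 h9
      have h9 : (δ : ℝ) = 0 := by
        have := pow_eq_zero_iff (two_ne_zero)|>.1 h7
        rw [h8] at this
        linarith
      have h10 : γ = 0 := by exact_mod_cast h8
      have h11 : δ = 0 := by exact_mod_cast h9
      rw [h10, h11] at hdet
      simp at hdet
  · push_cast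
    linear_combination (A * ((δ * w - β) + τ * (α - γ * w)) + B * (α - γ * w)) * e1 +
      (α - γ * w) ^ 2 * hq

theorem main : S_TRN → S_SURJ → S_EQV := by
  intro hT hS
  have sym : ∀ (N : ℕ) x y, 0 < N → IsoN N x y → IsoN N y x := by
    rintro N x y _ ⟨τ, w, a, b, c, d, hdet, h, hx, hy⟩
    refine ⟨w, τ, d, -b, -c, a, by linarith, ?_, hy, hx⟩
    push_cast
    linear_combination -h
  refine ⟨?_, ?_, sym, ?_, ?_⟩
  · intro x
    obtain ⟨τ, hτ⟩ := hS x
    refine ⟨1, Nat.one_pos, τ, τ, 1, 0, 0, 1, by norm_num, by push_cast; ring, hτ.symm, hτ.symm⟩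
  · rintro x y ⟨N, hN, h⟩
    exact ⟨N, hN, sym N x y hN h⟩
  · rintro x y z ⟨N, hN, τ, w, a, b, c, d, hdet, h, hx, hy⟩
      ⟨N', hN', τ1, w1, a1, b1, c1, d1, hdet1, h1, hy1, hz⟩
    have hpos : 0 < a * d - b * c := by rw [hdet]; exact_mod_cast hN
    obtain ⟨w2, a', b', c', d', hdet', h2, h3⟩ := hT.1 w1 τ w a b c d (hy1.symm.trans hy) hpos h
    refine ⟨N * N', Nat.mul_pos hN hN', τ1, w2, a' * a1 + b' * c1, a' * b1 + b' * d1,
      c' * a1 + d' * c1, c' * b1 + d' * d1, ?_, ?_, hx.trans h3.symm, hz⟩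
    · push_cast
      rw [← hdet, ← hdet', ← hdet1]
      ring
    · push_cast
      linear_combination ((c1 : ℂ) * τ1 + d1) * h2 + (a' - w2 * c') * h1
  · rintro x y ⟨N, hN, τ, w, a, b, c, d, hdet, h, hx, hy⟩ ⟨τ0, hcm, hx0⟩
    have hpos : 0 < d * a - -b * -c := by
      have : d * a - -b * -c = a * d - b * c := by ring
      rw [this, hdet]
      exact_mod_cast hN
    obtain ⟨w2, a', b', c', d', hdet', h2, h3⟩ := hT.1 τ0 w τ d (-b) (-c) a
      (hx0.symm.trans hx) hpos (by push_cast; linear_combination -h)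
    refine ⟨w2, cm_moebius τ0 w2 a' b' c' d' (by rw [hdet']; exact hpos) h2 hcm, ?_⟩
    rw [h3, hy]

end Pool.Agent.W412.YP.EQV
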